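import Mathlib
import Pool.Agent.V11306.SumMat

/-!
# MP_4f0cf1, Q1: the determinant of a sum of three Legendre-symbol matrices
-/

set_option autoImplicit false

namespace Pool.Agent.Results.MP_4f0cf1_nt.EveryPrime

open NumberField Pool.Agent.V11306 Pool.Agent.V11306.Conv

/-- The determinant of `[((j+k)/p) + ((j-k)/p) + (jk/p)]`, `1 ≤ j, k ≤ (p-1)/2`, for every prime
`p > 3`.  (The indices of the matrix are `j - 1`, `k - 1`.) -/
theorem result (p : ℕ) [Fact p.Prime] (hp : 3 < p) :
    (p % 4 = 1 →
      (Matrix.of fun j k : Fin ((p - 1) / 2) =>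
        legendreSym p (((j : ℤ) + 1) + ((k : ℤ) + 1)) +
        legendreSym p (((j : ℤ) + 1) - ((k : ℤ) + 1)) +
        legendreSym p (((j : ℤ) + 1) * ((k : ℤ) + 1))).det =
        legendreSym p 2 * (p : ℤ) ^ ((p - 5) / 4)) ∧
    (p % 4 = 3 →
      ∀ (K : Type) [Field K] [NumberField K], Module.finrank ℚ K = 2 →
      ∀ α : K, α ^ 2 = -(p : K) →
      (Matrix.of fun j k : Fin ((p - 1) / 2) =>
        legendreSym p (((j : ℤ) + 1) + ((k : ℤ) + 1)) +
        legendreSym p (((j : ℤ) + 1) - ((k : ℤ) + 1)) +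
        legendreSym p (((j : ℤ) + 1) * ((k : ℤ) + 1))).det =
        (-1) ^ ((classNumber K - 1) / 2) * (1 - (2 - legendreSym p 2) * (classNumber K : ℤ)) *
          (p : ℤ) ^ ((p - 3) / 4)) := by
  have hodd := (Fact.out : p.Prime).eq_two_or_odd
  have hp2 : p ≠ 2 := by omega
  have hn : p = 2 * ((p - 1) / 2) + 1 := by omega
  set n : ℕ := (p - 1) / 2 with hnd
  have e2 : legendreSym p 2 = quadraticChar (ZMod p) 2 := by
    rw [legendreSym]; norm_num
  have hent : ∀ j k : Fin n, (((legendreSym p (((j : ℤ) + 1) + ((k : ℤ) + 1)) +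
        legendreSym p (((j : ℤ) + 1) - ((k : ℤ) + 1)) +
        legendreSym p (((j : ℤ) + 1) * ((k : ℤ) + 1))) : ℤ) : ℚ) =
        Cm p n j k + v p n j * v p n k := by
    intro j k
    simp only [Cm, Matrix.of_apply, v]
    rw [← q_mul, q, q, q]
    simp only [legendreSym]
    push_cast
    rfl
  set M : Matrix (Fin n) (Fin n) ℤ := Matrix.of fun j k : Fin n =>
        legendreSym p (((j : ℤ) + 1) + ((k : ℤ) + 1)) +
        legendreSym p (((j : ℤ) + 1) - ((k : ℤ) + 1)) +
        legendreSym p (((j : ℤ) + 1) * ((k : ℤ) + 1)) with hM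
  constructor
  · intro h1
    obtain ⟨h, hh⟩ : ∃ h, n = 2 * (h + 1) := ⟨n / 2 - 1, by omega⟩
    have hD := det_Dm (p := p) h1 n h hn hh 0 0 0 1
    have hcast : ((M.det : ℤ) : ℚ) = (Dm p n 0 0 0 1).det := by
      rw [Int.cast_det]
      congr 1
      ext j k
      rw [Matrix.map_apply, hM, Matrix.of_apply, hent, Dm, Matrix.of_apply]
      ring
    rw [hD] at hcast
    have h4 : (M.det : ℤ) = -(-(p : ℤ)) ^ h := by
      have : ((M.det : ℤ) : ℚ) = ((-(-(p : ℤ)) ^ h : ℤ) : ℚ) := by
        rw [hcast]; push_cast; ring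
      exact_mod_cast this
    rw [h4, e2, Toep.two_sign h1 n hn]
    have e3 : (p - 5) / 4 = h := by omega
    have e4 : n / 2 = h + 1 := by omega
    rw [e3, e4, neg_pow, pow_succ]
    ring
  · intro h3 K _ _ h2 α hα
    have hS := Toep.half_sum h3 hp n hn K h2 α hα
    have hmor := Toep.mordell h3 hp n hn K h2 α hα
    have hC1 : ∀ j, ∑ k, Cm p n j k = - v p n j := by
      intro j
      simp only [Cm, Matrix.of_apply, v]
      set a := (((j : ℕ) + 1 : ℕ) : ZMod p) with ha
      have hf := sum_even n hn (fun k : ZMod p => q (a + k) + q (a - k)) (by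
        intro k
        rw [← sub_eq_add_neg, sub_neg_eq_add]; ring)
      have hs1 : ∑ k : ZMod p, (q (a + k) + q (a - k)) = 0 := by
        rw [Finset.sum_add_distrib]
        have t1 : ∑ k : ZMod p, q (a + k) = 0 := by
          rw [← q_sum (p := p) hp2]
          exact Fintype.sum_bijective (fun k : ZMod p => a + k) (Equiv.addLeft a).bijective _ _
            (fun k => rfl)
        have t2 : ∑ k : ZMod p, q (a - k) = 0 := by
          rw [← q_sum (p := p) hp2]
          exact Fintype.sum_bijective (fun k : ZMod p => a - k) (Equiv.subLeft a).bijective _ _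
            (fun k => rfl)
        rw [t1, t2]; ring
      rw [hs1, add_zero, sub_zero] at hf
      linarith
    have hmul : (Matrix.of fun j k : Fin n => Cm p n j k + v p n j * v p n k) =
        Cm p n * (1 + Matrix.replicateCol Unit (fun _ => (-1 : ℚ)) *
          Matrix.replicateRow Unit (v p n)) := by
      ext j k
      rw [Matrix.mul_add, Matrix.mul_one, Matrix.add_apply, Matrix.of_apply, Matrix.mul_apply]
      congr 1
      simp only [Matrix.mul_apply, Matrix.replicateCol_apply, Matrix.replicateRow_apply,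
        Finset.univ_unique, Finset.sum_singleton]
      have : ∀ i, Cm p n j i * (-1 * v p n k) = Cm p n j i * (- v p n k) := fun i => by ring
      rw [Finset.sum_congr rfl (fun i _ => this i), ← Finset.sum_mul, hC1]
      ring
    have hcast : ((M.det : ℤ) : ℚ) = (((Fz p n).det : ℤ) : ℚ) * (1 - ∑ k, v p n k) := by
      have e5 : ((M.det : ℤ) : ℚ) =
          (Matrix.of fun j k : Fin n => Cm p n j k + v p n j * v p n k).det := by
        rw [Int.cast_det]
        congr 1
        ext j k
        rw [Matrix.map_apply, hM, Matrix.of_apply, hent, Matrix.of_apply]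
      rw [e5, hmul, Matrix.det_mul, Matrix.det_one_add_replicateCol_mul_replicateRow, Fz_det]
      simp only [dotProduct]
      congr 1
      rw [← Finset.sum_mul]
      ring
    have hv : ∑ k, v p n k = ((((2 - quadraticChar (ZMod p) 2) * (classNumber K : ℤ)) : ℤ) : ℚ) := by
      rw [← hS, Int.cast_sum, ← Fin.sum_univ_eq_sum_range
        (fun j => ((quadraticChar (ZMod p) ((j + 1 : ℕ) : ZMod p) : ℤ) : ℚ))]
      rfl
    rw [hv] at hcast
    have h4 : M.det = (Fz p n).det * (1 - (2 - quadraticChar (ZMod p) 2) * (classNumber K : ℤ)) := by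
      exact_mod_cast hcast
    rw [h4, Fz_val h3 n hn, hmor.2, e2]
    have e3 : (p - 3) / 4 = (n - 1) / 2 := by omega
    rw [e3]
    ring

end Pool.Agent.Results.MP_4f0cf1_nt.EveryPrime
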